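import Mathlib

/-!
Bases and basic sequences of Banach spaces.
-/

set_option autoImplicit false

open Filter Topology

namespace Pool.Agent.Y216.BE

/-- The sequence `u` is a (Schauder) basis of `E`: every vector of `E` has a unique expansion. -/
def IsBasis (𝕜 : Type) [RCLike 𝕜] {E : Type} [NormedAddCommGroup E] [NormedSpace 𝕜 E]
    (u : ℕ → E) : Prop :=
  ∀ x : E, ∃! a : ℕ → 𝕜, Tendsto (fun n => ∑ k ∈ Finset.range n, a k • u k) atTop (𝓝 x)

/-- The sequence `y` is a basic sequence: it is a basis of its closed linear span. -/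
def IsBasic (𝕜 : Type) [RCLike 𝕜] {E : Type} [NormedAddCommGroup E] [NormedSpace 𝕜 E]
    (y : ℕ → E) : Prop :=
  ∀ x ∈ (Submodule.span 𝕜 (Set.range y)).topologicalClosure, ∃! a : ℕ → 𝕜,
    Tendsto (fun n => ∑ k ∈ Finset.range n, a k • y k) atTop (𝓝 x)

end Pool.Agent.Y216.BE
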