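import Mathlib

/-!
Moments of Rademacher sums.
-/

set_option autoImplicit false

open Finset
open scoped ComplexConjugate

namespace Pool.Agent.Y216.BE

variable {𝕜 : Type} [RCLike 𝕜] {ι : Type} [Fintype ι] [DecidableEq ι]

/-- the Rademacher functions -/
def rad (i : ι) (x : ι → Bool) : ℝ := if x i then 1 else -1

theorem rad_sq (i : ι) (x : ι → Bool) : rad i x * rad i x = 1 := by
  unfold rad
  split_ifs <;> norm_num

theorem abs_rad (i : ι) (x : ι → Bool) : |rad i x| = 1 := by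
  unfold rad
  split_ifs <;> norm_num

/-- change the coordinate `i` -/
def flip (i : ι) (x : ι → Bool) : ι → Bool := Function.update x i (!x i)

theorem flip_flip (i : ι) (x : ι → Bool) : flip i (flip i x) = x := by
  unfold flip
  funext j
  by_cases h : j = i
  · subst h
    simp
  · simp [Function.update_of_ne h]

theorem rad_flip (i : ι) (x : ι → Bool) : rad i (flip i x) = - rad i x := by
  unfold rad flip
  cases h : x i <;> simp [h]

theorem rad_flip_of_ne {i j : ι} (h : j ≠ i) (x : ι → Bool) : rad j (flip i x) = rad j x := by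
  unfold rad flip
  rw [Function.update_of_ne h]

theorem sum_flip (i : ι) (g : (ι → Bool) → ℝ) : ∑ x, g (flip i x) = ∑ x, g x := by
  let e : (ι → Bool) ≃ (ι → Bool) := ⟨flip i, flip i, flip_flip i, flip_flip i⟩
  exact e.sum_comp g

theorem sum_rad_mul {i : ι} {g : (ι → Bool) → ℝ} (hg : ∀ x, g (flip i x) = g x) :
    ∑ x, g x * rad i x = 0 := by
  have h1 := sum_flip i fun x => g x * rad i x
  have h2 : ∑ x, g (flip i x) * rad i (flip i x) = - ∑ x, g x * rad i x := by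
    rw [← sum_neg_distrib]
    exact sum_congr rfl fun x _ => by rw [hg, rad_flip]; ring
  linarith

/-- the Rademacher sum -/
noncomputable def rs (s : Finset ι) (B : ι → 𝕜) (x : ι → Bool) : 𝕜 := ∑ i ∈ s, (rad i x : 𝕜) * B i

theorem rs_flip {s : Finset ι} {i : ι} (hi : i ∉ s) (B : ι → 𝕜) (x : ι → Bool) :
    rs s B (flip i x) = rs s B x := by
  unfold rs
  exact sum_congr rfl fun j hj => by rw [rad_flip_of_ne (by rintro rfl; exact hi hj)]

theorem norm_sq_add (z w : 𝕜) : ‖z + w‖ ^ 2 = ‖z‖ ^ 2 + 2 * RCLike.re (z * conj w) + ‖w‖ ^ 2 := by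
  rw [← RCLike.normSq_eq_def', ← RCLike.normSq_eq_def', ← RCLike.normSq_eq_def',
    RCLike.normSq_add]
  ring

theorem abs_re_le (z w : 𝕜) : RCLike.re (z * conj w) ^ 2 ≤ ‖z‖ ^ 2 * ‖w‖ ^ 2 := by
  have h1 := RCLike.abs_re_le_norm (z * conj w)
  rw [norm_mul, RCLike.norm_conj] at h1
  calc RCLike.re (z * conj w) ^ 2 = |RCLike.re (z * conj w)| ^ 2 := (sq_abs _).symm
    _ ≤ (‖z‖ * ‖w‖) ^ 2 := pow_le_pow_left₀ (abs_nonneg _) h1 2
    _ = ‖z‖ ^ 2 * ‖w‖ ^ 2 := by ring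

theorem rs_insert {s : Finset ι} {a : ι} (ha : a ∉ s) (B : ι → 𝕜) (x : ι → Bool) :
    ‖rs (insert a s) B x‖ ^ 2 =
      (‖rs s B x‖ ^ 2 + ‖B a‖ ^ 2) + 2 * RCLike.re (rs s B x * conj (B a)) * rad a x := by
  have h1 : rs (insert a s) B x = rs s B x + (rad a x : 𝕜) * B a := by
    unfold rs
    rw [sum_insert ha, add_comm]
  rw [h1, norm_sq_add, norm_mul, RCLike.norm_ofReal, abs_rad, one_mul, map_mul (starRingEnd 𝕜),
    RCLike.conj_ofReal]
  have h2 : rs s B x * ((rad a x : 𝕜) * conj (B a)) = (rad a x : 𝕜) * (rs s B x * conj (B a)) := by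
    ring
  rw [h2, RCLike.re_ofReal_mul]
  ring

/-- the second moment -/
theorem sum_rs_sq (s : Finset ι) (B : ι → 𝕜) :
    ∑ x : ι → Bool, ‖rs s B x‖ ^ 2 = Fintype.card (ι → Bool) * ∑ i ∈ s, ‖B i‖ ^ 2 := by
  induction s using Finset.induction_on with
  | empty => simp [rs]
  | insert a s ha ih =>
    rw [sum_congr rfl fun x _ => rs_insert ha B x, sum_add_distrib, sum_add_distrib, ih,
      sum_rad_mul fun x => by rw [rs_flip ha], sum_insert ha, sum_const, card_univ, nsmul_eq_mul]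
    ring

/-- the fourth moment -/
theorem sum_rs_four (s : Finset ι) (B : ι → 𝕜) :
    ∑ x : ι → Bool, ‖rs s B x‖ ^ 4 ≤
      Fintype.card (ι → Bool) * (3 * (∑ i ∈ s, ‖B i‖ ^ 2) ^ 2) := by
  induction s using Finset.induction_on with
  | empty => simp [rs]
  | insert a s ha ih =>
    have h1 : ∀ x, ‖rs (insert a s) B x‖ ^ 4 =
        ((‖rs s B x‖ ^ 2 + ‖B a‖ ^ 2) ^ 2 + 4 * RCLike.re (rs s B x * conj (B a)) ^ 2) +
        (4 * (‖rs s B x‖ ^ 2 + ‖B a‖ ^ 2) * RCLike.re (rs s B x * conj (B a))) * rad a x := by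
      intro x
      have h2 : ‖rs (insert a s) B x‖ ^ 4 = (‖rs (insert a s) B x‖ ^ 2) ^ 2 := by ring
      rw [h2, rs_insert ha]
      have h3 := rad_sq a x
      linear_combination (4 * RCLike.re (rs s B x * conj (B a)) ^ 2) * h3
    rw [sum_congr rfl fun x _ => h1 x, sum_add_distrib,
      sum_rad_mul fun x => by rw [rs_flip ha], add_zero, sum_insert ha]
    have h2 : ∀ x, (‖rs s B x‖ ^ 2 + ‖B a‖ ^ 2) ^ 2 + 4 * RCLike.re (rs s B x * conj (B a)) ^ 2 ≤
        ‖rs s B x‖ ^ 4 + (6 * ‖B a‖ ^ 2) * ‖rs s B x‖ ^ 2 + ‖B a‖ ^ 4 := by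
      intro x
      have h3 := abs_re_le (rs s B x) (B a)
      nlinarith
    refine le_trans (sum_le_sum fun x _ => h2 x) ?_
    rw [sum_add_distrib, sum_add_distrib, ← mul_sum, sum_rs_sq, sum_const, card_univ, nsmul_eq_mul]
    have hN : (0 : ℝ) ≤ Fintype.card (ι → Bool) := Nat.cast_nonneg _
    have hS : 0 ≤ ∑ i ∈ s, ‖B i‖ ^ 2 := sum_nonneg fun i _ => by positivity
    have hb : 0 ≤ ‖B a‖ ^ 2 := by positivity
    have h4 : 0 ≤ (Fintype.card (ι → Bool) : ℝ) * (‖B a‖ ^ 2 * ‖B a‖ ^ 2) :=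
      mul_nonneg hN (mul_nonneg hb hb)
    nlinarith

/-- the `L¹`-norm of a Rademacher sum -/
noncomputable def rn (s : Finset ι) (B : ι → 𝕜) : ℝ :=
  ∑ x : ι → Bool, (Fintype.card (ι → Bool) : ℝ)⁻¹ * ‖rs s B x‖

theorem rn_nonneg (s : Finset ι) (B : ι → 𝕜) : 0 ≤ rn s B :=
  sum_nonneg fun _ _ => by positivity

theorem card_pos' : (0 : ℝ) < Fintype.card (ι → Bool) := by
  exact_mod_cast Fintype.card_pos

/-- upper bound -/
theorem rn_le {s : Finset ι} {B : ι → 𝕜} {S : ℝ} (hS : 0 ≤ S) (h : ∑ i ∈ s, ‖B i‖ ^ 2 ≤ S ^ 2) :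
    rn s B ≤ S := by
  have hN := card_pos' (ι := ι)
  rcases hS.lt_or_eq with hS | rfl
  · have h1 : ∀ x, ‖rs s B x‖ ≤ (‖rs s B x‖ ^ 2 / S + S) / 2 := by
      intro x
      rw [le_div_iff₀ (by norm_num : (0 : ℝ) < 2)]
      have h2 : ‖rs s B x‖ ^ 2 / S + S - ‖rs s B x‖ * 2 = (‖rs s B x‖ - S) ^ 2 / S := by
        field_simp
        ring
      have h3 : 0 ≤ (‖rs s B x‖ - S) ^ 2 / S := by positivity
      linarith
    calc rn s B ≤ ∑ x : ι → Bool, (Fintype.card (ι → Bool) : ℝ)⁻¹ *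
          ((‖rs s B x‖ ^ 2 / S + S) / 2) :=
          sum_le_sum fun x _ => mul_le_mul_of_nonneg_left (h1 x) (by positivity)
      _ = ((∑ i ∈ s, ‖B i‖ ^ 2) / S + S) / 2 := by
          rw [← mul_sum, ← sum_div, sum_add_distrib, ← sum_div, sum_rs_sq, sum_const, card_univ,
            nsmul_eq_mul]
          field_simp
      _ ≤ S := by
          have h4 : (∑ i ∈ s, ‖B i‖ ^ 2) / S ≤ S := by
            rw [div_le_iff₀ hS]
            nlinarith
          linarith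
  · have h0 : ∑ i ∈ s, ‖B i‖ ^ 2 ≤ 0 := by simpa using h
    have h1 := sum_rs_sq s B
    have h2 : ∑ x : ι → Bool, ‖rs s B x‖ ^ 2 ≤ 0 := by
      rw [h1]
      nlinarith
    have h3 : ∀ x, ‖rs s B x‖ = 0 := by
      intro x
      have h4 : ‖rs s B x‖ ^ 2 ≤ ∑ x : ι → Bool, ‖rs s B x‖ ^ 2 :=
        single_le_sum (f := fun x => ‖rs s B x‖ ^ 2) (fun _ _ => by positivity) (mem_univ x)
      have h5 : ‖rs s B x‖ ^ 2 = 0 := le_antisymm (by linarith) (by positivity)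
      exact pow_eq_zero_iff (two_ne_zero) |>.1 h5
    unfold rn
    simp [h3]

/-- lower bound -/
theorem le_rn {s : Finset ι} {B : ι → 𝕜} {S : ℝ} (hS : 0 ≤ S) (h : ∑ i ∈ s, ‖B i‖ ^ 2 = S ^ 2) :
    S ≤ 2 * rn s B := by
  have hN := card_pos' (ι := ι)
  rcases hS.lt_or_eq with hS | rfl
  · have h1 : ∀ x, ‖rs s B x‖ ^ 2 / S - 4 / 27 * (‖rs s B x‖ ^ 4 / S ^ 3) ≤ ‖rs s B x‖ := by
      intro x
      obtain ⟨t, ht⟩ : ∃ t, t = ‖rs s B x‖ / S := ⟨_, rfl⟩
      have ht0 : 0 ≤ t := by rw [ht]; positivity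
      have h2 : ‖rs s B x‖ = t * S := by rw [ht]; field_simp
      rw [h2]
      have h3 : (t * S) ^ 2 / S - 4 / 27 * ((t * S) ^ 4 / S ^ 3) = S * (t * (t - 4 / 27 * t ^ 3)) := by
        field_simp
      rw [h3]
      have h4 : t - 4 / 27 * t ^ 3 ≤ 1 := by
        have : 0 ≤ 4 / 27 * ((t - 3 / 2) ^ 2 * (t + 3)) := by positivity
        nlinarith
      have h5 : t * (t - 4 / 27 * t ^ 3) ≤ t * 1 := mul_le_mul_of_nonneg_left h4 ht0
      have h6 := mul_le_mul_of_nonneg_left h5 hS.le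
      linarith
    have h7 : ∑ x : ι → Bool, (Fintype.card (ι → Bool) : ℝ)⁻¹ *
        (‖rs s B x‖ ^ 2 / S - 4 / 27 * (‖rs s B x‖ ^ 4 / S ^ 3)) ≤ rn s B :=
      sum_le_sum fun x _ => mul_le_mul_of_nonneg_left (h1 x) (by positivity)
    rw [← mul_sum, sum_sub_distrib, ← sum_div, ← mul_sum, ← sum_div, sum_rs_sq, h] at h7
    have h8 := sum_rs_four s B
    rw [h] at h8
    have h9 : (∑ x : ι → Bool, ‖rs s B x‖ ^ 4) / S ^ 3 ≤
        Fintype.card (ι → Bool) * (3 * S) := by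
      rw [div_le_iff₀ (by positivity)]
      calc _ ≤ _ := h8
        _ = _ := by ring
    have h10 : (Fintype.card (ι → Bool) : ℝ)⁻¹ * (Fintype.card (ι → Bool) * S ^ 2 / S -
        4 / 27 * (Fintype.card (ι → Bool) * (3 * S))) ≤ rn s B := by
      refine le_trans (mul_le_mul_of_nonneg_left ?_ (by positivity)) h7
      linarith
    have h11 : (Fintype.card (ι → Bool) : ℝ)⁻¹ * (Fintype.card (ι → Bool) * S ^ 2 / S -
        4 / 27 * (Fintype.card (ι → Bool) * (3 * S))) = 5 / 9 * S := by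
      field_simp
      ring
    rw [h11] at h10
    linarith
  · have := rn_nonneg s B
    linarith

end Pool.Agent.Y216.BE
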