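import Pool.Agent.Y216.BE.Gen
import Pool.Agent.Y216.BE.Mom

/-!
A basic sequence in `ℓ¹` which cannot be extended to a basis.
-/

set_option autoImplicit false

open Filter Topology Finset
open scoped ENNReal

namespace Pool.Agent.Y216.BE

/-- the indices of the unit vectors: the block `m` consists of `2 ^ m` unit vectors and of the unit
vectors of the cube of dimension `2 ^ m` -/
abbrev Idx : Type := Σ m : ℕ, (Fin (2 ^ m) ⊕ (Fin (2 ^ m) → Bool))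

theorem exists_enc : ∃ e : Idx → ℕ, Function.Injective e := Countable.exists_injective_nat Idx

/-- numbering of the unit vectors -/
noncomputable def enc : Idx → ℕ := exists_enc.choose

theorem enc_inj : Function.Injective enc := exists_enc.choose_spec

variable (𝕜 : Type) [RCLike 𝕜]

/-- the space `ℓ¹` -/
abbrev L1 : Type := lp (fun _ : ℕ => 𝕜) 1

/-- the unit vectors -/
noncomputable def uv (i : Idx) : L1 𝕜 := lp.single 1 (enc i) 1

variable {𝕜}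

theorem uv_apply (i j : Idx) : (uv 𝕜 i : ℕ → 𝕜) (enc j) = if i = j then 1 else 0 := by
  unfold uv
  rw [lp.coeFn_single]
  split_ifs with h
  · rw [h, Pi.single_eq_same]
  · rw [Pi.single_eq_of_ne]
    intro h'
    exact h (enc_inj h').symm

theorem norm_sum_uv (s : Finset Idx) (c : Idx → 𝕜) : ‖∑ i ∈ s, c i • uv 𝕜 i‖ = ∑ i ∈ s, ‖c i‖ := by
  have h1 := lp.norm_sum_single (p := 1) (E := fun _ : ℕ => 𝕜) (by norm_num)
    (Function.extend enc c 0) (s.map ⟨enc, enc_inj⟩)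
  rw [sum_map, sum_map] at h1
  simp only [Function.Embedding.coeFn_mk, enc_inj.extend_apply, ENNReal.toReal_one,
    Real.rpow_one] at h1
  rw [← h1]
  congr 1
  refine sum_congr rfl fun i _ => ?_
  unfold uv
  rw [← lp.single_smul, smul_eq_mul, mul_one]

theorem norm_uv (i : Idx) : ‖uv 𝕜 i‖ = 1 := by
  have h1 := norm_sum_uv (𝕜 := 𝕜) {i} fun _ => 1
  simpa using h1

/-- the number of points of the cube -/
noncomputable def cN (m : ℕ) : ℝ := Fintype.card (Fin (2 ^ m) → Bool)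

theorem cN_pos (m : ℕ) : 0 < cN m := card_pos'

/-- the coefficient -/
noncomputable def gam (m : ℕ) : ℝ := (√(2 ^ m))⁻¹

theorem gam_pos (m : ℕ) : 0 < gam m := by
  unfold gam
  positivity

variable (𝕜) in
/-- the Rademacher vectors -/
noncomputable def rv (m : ℕ) (i : Fin (2 ^ m)) : L1 𝕜 :=
  ∑ x : Fin (2 ^ m) → Bool, (((cN m)⁻¹ * rad i x : ℝ) : 𝕜) • uv 𝕜 ⟨m, Sum.inr x⟩

variable (𝕜) in
/-- the vectors of the block `m` -/
noncomputable def yb (m s : ℕ) : L1 𝕜 :=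
  if h : s < 2 ^ m then uv 𝕜 ⟨m, Sum.inl ⟨s, h⟩⟩
  else if h' : s - 2 ^ m < 2 ^ m then
    ((gam m : ℝ) : 𝕜) • uv 𝕜 ⟨m, Sum.inl ⟨s - 2 ^ m, h'⟩⟩ - rv 𝕜 m ⟨s - 2 ^ m, h'⟩
  else 0

theorem yb_left (m : ℕ) (i : Fin (2 ^ m)) : yb 𝕜 m i = uv 𝕜 ⟨m, Sum.inl i⟩ := by
  unfold yb
  rw [dif_pos i.2]

theorem yb_right (m : ℕ) (i : Fin (2 ^ m)) :
    yb 𝕜 m (2 ^ m + i) = ((gam m : ℝ) : 𝕜) • uv 𝕜 ⟨m, Sum.inl i⟩ - rv 𝕜 m i := by
  unfold yb
  have h1 : ¬ (2 ^ m + (i : ℕ) < 2 ^ m) := by omega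
  have h2 : 2 ^ m + (i : ℕ) - 2 ^ m = i := by omega
  rw [dif_neg h1, dif_pos (by rw [h2]; exact i.2)]
  have h3 : (⟨2 ^ m + (i : ℕ) - 2 ^ m, by rw [h2]; exact i.2⟩ : Fin (2 ^ m)) = i := Fin.ext h2
  rw [h3]

/-- the beginning of the block `m` -/
def off (m : ℕ) : ℕ := 2 ^ (m + 1) - 2

theorem two_le_pow (m : ℕ) : 2 ≤ 2 ^ (m + 1) := by
  rw [pow_succ]
  have := Nat.one_le_two_pow (n := m)
  omega

theorem off_succ (m : ℕ) : off (m + 1) = off m + (2 ^ m + 2 ^ m) := by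
  unfold off
  have h1 := two_le_pow m
  have h2 : 2 ^ (m + 1 + 1) = 2 ^ (m + 1) + (2 ^ m + 2 ^ m) := by ring
  omega

variable (𝕜) in
/-- The sequence. -/
noncomputable def ys (k : ℕ) : L1 𝕜 :=
  yb 𝕜 (Nat.log 2 (k + 2) - 1) (k + 2 - 2 ^ Nat.log 2 (k + 2))

theorem ys_block {m s : ℕ} (hs : s < 2 ^ m + 2 ^ m) : ys 𝕜 (off m + s) = yb 𝕜 m s := by
  have h1 := two_le_pow m
  have h2 : off m + s + 2 = 2 ^ (m + 1) + s := by
    unfold off
    omega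
  have h3 : Nat.log 2 (off m + s + 2) = m + 1 := by
    rw [h2]
    refine Nat.log_eq_of_pow_le_of_lt_pow (by omega) ?_
    have : 2 ^ (m + 1 + 1) = 2 ^ (m + 1) + (2 ^ m + 2 ^ m) := by ring
    omega
  unfold ys
  rw [h3, h2]
  congr 1
  omega

theorem exists_block (k : ℕ) : ∃ m s, s < 2 ^ m + 2 ^ m ∧ k = off m + s := by
  obtain ⟨L, hL⟩ : ∃ L, k < off L := by
    refine ⟨k + 1, ?_⟩
    unfold off
    have h1 : k + 1 < 2 ^ (k + 1) := Nat.lt_two_pow_self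
    have h2 : 2 ^ (k + 1 + 1) = 2 ^ (k + 1) + 2 ^ (k + 1) := by ring
    omega
  induction L with
  | zero =>
    simp [off] at hL
  | succ L ih =>
    by_cases h : k < off L
    · exact ih h
    · refine ⟨L, k - off L, ?_, by omega⟩
      rw [off_succ] at hL
      omega

/-- norm of a block -/
noncomputable def nu (m : ℕ) (A B : Fin (2 ^ m) → 𝕜) : ℝ :=
  ∑ i, ‖A i + ((gam m : ℝ) : 𝕜) * B i‖ + rn univ B

theorem norm_blocks (a : ℕ → 𝕜) (L : ℕ) :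
    ‖∑ k ∈ range (off L), a k • ys 𝕜 k‖ =
      ∑ m ∈ range L, nu m (fun i => a (off m + i)) fun i => a (off m + (2 ^ m + i)) := by
  obtain ⟨c, hc⟩ : ∃ c : Idx → 𝕜, c = fun t => Sum.elim
      (fun i : Fin (2 ^ t.1) => a (off t.1 + i) + ((gam t.1 : ℝ) : 𝕜) * a (off t.1 + (2 ^ t.1 + i)))
      (fun x => -((((cN t.1)⁻¹ : ℝ) : 𝕜) *
        rs univ (fun i : Fin (2 ^ t.1) => a (off t.1 + (2 ^ t.1 + (i : ℕ)))) x))
      t.2 := ⟨_, rfl⟩
  have h1 : ∑ k ∈ range (off L), a k • ys 𝕜 k =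
      ∑ m ∈ range L, ∑ t, c ⟨m, t⟩ • uv 𝕜 ⟨m, t⟩ := by
    induction L with
    | zero => simp [off]
    | succ L ih =>
      rw [off_succ, sum_range_add, ih, sum_range_succ]
      congr 1
      have h2 : ∀ s ∈ range (2 ^ L + 2 ^ L), a (off L + s) • ys 𝕜 (off L + s) =
          a (off L + s) • yb 𝕜 L s := fun s hs => by rw [ys_block (mem_range.1 hs)]
      rw [sum_congr rfl h2, sum_range_add, Finset.sum_range, Finset.sum_range,
        Fintype.sum_sum_type, ← sum_add_distrib]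
      simp only [yb_left, yb_right, hc, Sum.elim_inl, Sum.elim_inr]
      have h3 : ∑ x : Fin (2 ^ L) → Bool, (-((((cN L)⁻¹ : ℝ) : 𝕜) *
          rs univ (fun i : Fin (2 ^ L) => a (off L + (2 ^ L + (i : ℕ)))) x)) • uv 𝕜 ⟨L, Sum.inr x⟩ =
          - ∑ i : Fin (2 ^ L), a (off L + (2 ^ L + i)) • rv 𝕜 L i := by
        unfold rv rs
        simp only [smul_sum, smul_smul]
        rw [sum_comm, ← sum_neg_distrib]
        refine sum_congr rfl fun x _ => ?_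
        rw [← sum_smul, ← neg_smul]
        congr 2
        rw [mul_sum]
        refine sum_congr rfl fun i _ => ?_
        push_cast
        ring
      rw [h3, ← sub_eq_add_neg, ← sum_sub_distrib]
      refine sum_congr rfl fun i _ => ?_
      rw [smul_sub, smul_smul, add_smul, mul_comm (a (off L + (2 ^ L + (i : ℕ))))]
      abel
  have h2 : ∑ m ∈ range L, ∑ t, c ⟨m, t⟩ • uv 𝕜 ⟨m, t⟩ =
      ∑ i ∈ (range L).sigma fun _ => univ, c i • uv 𝕜 i := by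
    rw [sum_sigma]
  rw [h1, h2, norm_sum_uv, sum_sigma]
  refine sum_congr rfl fun m _ => ?_
  rw [Fintype.sum_sum_type]
  unfold nu rn
  rw [hc]
  simp only [Sum.elim_inl, Sum.elim_inr]
  congr 1
  refine sum_congr rfl fun x _ => ?_
  rw [norm_neg, norm_mul, RCLike.norm_ofReal, abs_of_pos (inv_pos.2 (cN_pos m))]
  rfl

/-- the estimate for a block -/
theorem nu_le (m : ℕ) {A B A' B' : Fin (2 ^ m) → 𝕜}
    (h : ∀ i, (A' i = 0 ∧ B' i = 0) ∨ (A' i = A i ∧ (B' i = 0 ∨ B' i = B i))) :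
    nu m A' B' ≤ 4 * nu m A B := by
  obtain ⟨S, hS0, hS⟩ : ∃ S : ℝ, 0 ≤ S ∧ ∑ i, ‖B i‖ ^ 2 = S ^ 2 :=
    ⟨√(∑ i, ‖B i‖ ^ 2), Real.sqrt_nonneg _, (Real.sq_sqrt (sum_nonneg fun _ _ => by positivity)).symm⟩
  have hlow := le_rn (s := univ) hS0 hS
  have hup : rn univ B' ≤ S := by
    refine rn_le hS0 ?_
    rw [← hS]
    refine sum_le_sum fun i _ => ?_
    rcases h i with ⟨_, h1⟩ | ⟨_, h1 | h1⟩
    · rw [h1, norm_zero, zero_pow two_ne_zero]
      positivity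
    · rw [h1, norm_zero, zero_pow two_ne_zero]
      positivity
    · rw [h1]
  have hg := gam_pos m
  have hcs : gam m * ∑ i, ‖B i‖ ≤ S := by
    have h1 := sq_sum_le_card_mul_sum_sq (s := (univ : Finset (Fin (2 ^ m)))) (f := fun i => ‖B i‖)
    rw [hS, card_univ, Fintype.card_fin] at h1
    have h2 : ∑ i, ‖B i‖ ≤ √(2 ^ m) * S := by
      refine abs_le_of_sq_le_sq' ?_ (by positivity) |>.2
      rw [mul_pow, Real.sq_sqrt (by positivity)]
      exact_mod_cast h1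
    have h3 : 0 < √((2 : ℝ) ^ m) := by positivity
    unfold gam
    rw [inv_mul_le_iff₀ h3]
    exact h2
  have hpt : ∀ i, ‖A' i + ((gam m : ℝ) : 𝕜) * B' i‖ ≤
      ‖A i + ((gam m : ℝ) : 𝕜) * B i‖ + gam m * ‖B i‖ := by
    intro i
    have h0 : ‖((gam m : ℝ) : 𝕜) * B i‖ = gam m * ‖B i‖ := by
      rw [norm_mul, RCLike.norm_ofReal, abs_of_pos hg]
    rcases h i with ⟨h1, h2⟩ | ⟨h1, h2 | h2⟩
    · rw [h1, h2, mul_zero, add_zero, norm_zero]
      positivity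
    · rw [h1, h2, mul_zero, add_zero, ← h0]
      have h3 : A i = (A i + ((gam m : ℝ) : 𝕜) * B i) - ((gam m : ℝ) : 𝕜) * B i := by ring
      conv_lhs => rw [h3]
      exact norm_sub_le _ _
    · rw [h1, h2]
      have : 0 ≤ gam m * ‖B i‖ := by positivity
      linarith
  have h1 : ∑ i, ‖A' i + ((gam m : ℝ) : 𝕜) * B' i‖ ≤
      ∑ i, ‖A i + ((gam m : ℝ) : 𝕜) * B i‖ + gam m * ∑ i, ‖B i‖ := by
    rw [mul_sum, ← sum_add_distrib]
    exact sum_le_sum fun i _ => hpt i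
  have h2 : 0 ≤ ∑ i, ‖A i + ((gam m : ℝ) : 𝕜) * B i‖ := sum_nonneg fun _ _ => norm_nonneg _
  unfold nu
  linarith

theorem ys_ne (k : ℕ) : ys 𝕜 k ≠ 0 := by
  obtain ⟨m, s, hs, rfl⟩ := exists_block k
  rw [ys_block hs]
  by_cases h : s < 2 ^ m
  · have h1 := yb_left (𝕜 := 𝕜) m ⟨s, h⟩
    simp only at h1
    rw [h1]
    intro h0
    have h2 := norm_uv (𝕜 := 𝕜) ⟨m, Sum.inl ⟨s, h⟩⟩
    rw [h0, norm_zero] at h2
    exact zero_ne_one h2
  · obtain ⟨t, rfl⟩ : ∃ t, s = 2 ^ m + t := ⟨s - 2 ^ m, by omega⟩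
    have ht : t < 2 ^ m := by omega
    have h1 := yb_right (𝕜 := 𝕜) m ⟨t, ht⟩
    simp only at h1
    rw [h1]
    intro h0
    have h2 : ((((gam m : ℝ) : 𝕜) • uv 𝕜 ⟨m, Sum.inl ⟨t, ht⟩⟩ - rv 𝕜 m ⟨t, ht⟩ : L1 𝕜) : ℕ → 𝕜)
        (enc ⟨m, Sum.inl ⟨t, ht⟩⟩) = ((gam m : ℝ) : 𝕜) := by
      unfold rv
      rw [lp.coeFn_sub, Pi.sub_apply, lp.coeFn_smul, Pi.smul_apply, uv_apply, if_pos rfl,
        lp.coeFn_sum, Finset.sum_apply, sum_eq_zero, sub_zero, smul_eq_mul, mul_one]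
      intro x _
      rw [lp.coeFn_smul, Pi.smul_apply, uv_apply, if_neg (by simp), smul_zero]
    rw [h0] at h2
    have h3 := gam_pos m
    have h4 : ((gam m : ℝ) : 𝕜) = 0 := h2.symm
    rw [RCLike.ofReal_eq_zero] at h4
    exact h3.ne' h4

/-- The sequence is a basic sequence. -/
theorem ys_basic : IsBasic 𝕜 (ys 𝕜) := by
  refine basic_of_bound (K := 4) ys_ne fun a M N hMN => ?_
  obtain ⟨L, hL⟩ : ∃ L, N ≤ off L := by
    refine ⟨N + 1, ?_⟩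
    unfold off
    have h1 : N + 1 < 2 ^ (N + 1) := Nat.lt_two_pow_self
    have h2 : 2 ^ (N + 1 + 1) = 2 ^ (N + 1) + 2 ^ (N + 1) := by ring
    omega
  have key : ∀ M ≤ off L, ∑ k ∈ range M, a k • ys 𝕜 k =
      ∑ k ∈ range (off L), (if k < M then a k else 0) • ys 𝕜 k := by
    intro M hM
    rw [← sum_subset (range_mono hM) fun k _ hk => ?_]
    · exact sum_congr rfl fun k hk => by rw [if_pos (mem_range.1 hk)]
    · rw [if_neg (fun h => hk (mem_range.2 h)), zero_smul]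
  rw [key M (by omega), key N hL, norm_blocks, norm_blocks, mul_sum]
  refine sum_le_sum fun m _ => nu_le m fun i => ?_
  by_cases h1 : off m + i < M
  · right
    refine ⟨by rw [if_pos h1, if_pos (by omega)], ?_⟩
    by_cases h2 : off m + (2 ^ m + i) < M
    · right
      rw [if_pos h2, if_pos (by omega)]
    · left
      rw [if_neg h2]
  · left
    exact ⟨by rw [if_neg h1], by rw [if_neg (by omega)]⟩

/-- The sequence cannot be extended to a basis. -/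
theorem ys_not_ext (u : ℕ → L1 𝕜) (hu : IsBasis 𝕜 u) (p : ℕ → ℕ) (hp : StrictMono p) :
    ¬ ∀ n, u (p n) = ys 𝕜 n := by
  intro hup
  obtain ⟨P, C, hC, hP⟩ := exists_proj hu
  -- a large block
  obtain ⟨t, ht⟩ : ∃ t : ℕ, C < 2 ^ t := pow_unbounded_of_one_lt C (by norm_num)
  obtain ⟨m, hm⟩ : ∃ m, m = 2 * t := ⟨_, rfl⟩
  obtain ⟨T, hTd⟩ : ∃ T, T = P (p (off m + 2 ^ m)) := ⟨_, rfl⟩
  have hT1 : ∀ i : Fin (2 ^ m), T (uv 𝕜 ⟨m, Sum.inl i⟩) = uv 𝕜 ⟨m, Sum.inl i⟩ := by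
    intro i
    have hi := i.2
    have h1 : uv 𝕜 ⟨m, Sum.inl i⟩ = u (p (off m + i)) := by
      rw [hup, ys_block (by omega), yb_left]
    rw [h1, hTd, hP, if_pos (hp (by omega))]
  have hT2 : ∀ i : Fin (2 ^ m),
      T (((gam m : ℝ) : 𝕜) • uv 𝕜 ⟨m, Sum.inl i⟩ - rv 𝕜 m i) = 0 := by
    intro i
    have hi := i.2
    have h1 : ((gam m : ℝ) : 𝕜) • uv 𝕜 ⟨m, Sum.inl i⟩ - rv 𝕜 m i = u (p (off m + (2 ^ m + i))) := by
      rw [hup, ys_block (by omega), yb_right]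
    have h2 : p (off m + 2 ^ m) ≤ p (off m + (2 ^ m + i)) := hp.monotone (by omega)
    rw [h1, hTd, hP, if_neg (by omega)]
  have hT3 : ∀ i : Fin (2 ^ m), T (rv 𝕜 m i) = ((gam m : ℝ) : 𝕜) • uv 𝕜 ⟨m, Sum.inl i⟩ := by
    intro i
    have h1 := hT2 i
    rw [map_sub, map_smul, hT1, sub_eq_zero] at h1
    exact h1.symm
  -- the coordinates
  have hco : ∀ i : Fin (2 ^ m), gam m ≤ ∑ x : Fin (2 ^ m) → Bool,
      (cN m)⁻¹ * ‖(T (uv 𝕜 ⟨m, Sum.inr x⟩) : ℕ → 𝕜) (enc ⟨m, Sum.inl i⟩)‖ := by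
    intro i
    have h1 := congrArg (fun z : L1 𝕜 => (z : ℕ → 𝕜) (enc ⟨m, Sum.inl i⟩)) (hT3 i)
    simp only [rv, map_sum, map_smul] at h1
    rw [lp.coeFn_sum, Finset.sum_apply, lp.coeFn_smul, Pi.smul_apply, uv_apply, if_pos rfl,
      smul_eq_mul, mul_one] at h1
    have h2 := congrArg norm h1
    rw [RCLike.norm_ofReal, abs_of_pos (gam_pos m)] at h2
    rw [← h2]
    refine le_trans (norm_sum_le _ _) (sum_le_sum fun x _ => ?_)
    rw [lp.coeFn_smul, Pi.smul_apply, smul_eq_mul, norm_mul, RCLike.norm_ofReal, abs_mul, abs_rad,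
      mul_one, abs_of_pos (inv_pos.2 (cN_pos m))]
  have hsum : (2 : ℝ) ^ m * gam m ≤ C := by
    have h1 : ∑ _i : Fin (2 ^ m), gam m = (2 : ℝ) ^ m * gam m := by
      rw [sum_const, card_univ, Fintype.card_fin, nsmul_eq_mul]
      push_cast
      rfl
    rw [← h1]
    refine le_trans (sum_le_sum fun i _ => hco i) ?_
    rw [sum_comm]
    have h2 : ∀ x : Fin (2 ^ m) → Bool, ∑ i : Fin (2 ^ m),
        (cN m)⁻¹ * ‖(T (uv 𝕜 ⟨m, Sum.inr x⟩) : ℕ → 𝕜) (enc ⟨m, Sum.inl i⟩)‖ ≤ (cN m)⁻¹ * C := by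
      intro x
      rw [← mul_sum]
      refine mul_le_mul_of_nonneg_left ?_ (inv_nonneg.2 (cN_pos m).le)
      have h3 := lp.sum_rpow_le_norm_rpow (p := 1) (E := fun _ : ℕ => 𝕜) (by norm_num)
        (T (uv 𝕜 ⟨m, Sum.inr x⟩)) (univ.map ⟨fun i : Fin (2 ^ m) => enc ⟨m, Sum.inl i⟩, by
          intro i j hij
          have := enc_inj hij
          simpa using this⟩)
      rw [sum_map] at h3
      simp only [Function.Embedding.coeFn_mk, ENNReal.toReal_one, Real.rpow_one] at h3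
      refine le_trans h3 ?_
      have h4 := hC (p (off m + 2 ^ m)) (uv 𝕜 ⟨m, Sum.inr x⟩)
      rw [norm_uv, mul_one, ← hTd] at h4
      exact h4
    refine le_trans (sum_le_sum fun x _ => h2 x) ?_
    rw [sum_const, card_univ, nsmul_eq_mul, ← mul_assoc]
    have h5 : ((Fintype.card (Fin (2 ^ m) → Bool) : ℕ) : ℝ) * (cN m)⁻¹ = 1 :=
      mul_inv_cancel₀ (cN_pos m).ne'
    rw [h5, one_mul]
  have hfin : (2 : ℝ) ^ m * gam m = 2 ^ t := by
    unfold gam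
    rw [hm, pow_mul', Real.sqrt_sq (by positivity), sq, mul_assoc, mul_inv_cancel₀ (by positivity),
      mul_one]
  rw [hfin] at hsum
  linarith

/-- **The basis extension problem has a negative answer in `ℓ¹`.** -/
theorem main : (∃ u : ℕ → L1 𝕜, IsBasis 𝕜 u) ∧ ∃ y : ℕ → L1 𝕜, IsBasic 𝕜 y ∧
    ¬ ∃ u : ℕ → L1 𝕜, IsBasis 𝕜 u ∧ ∃ p : ℕ → ℕ, StrictMono p ∧ ∀ n, u (p n) = y n :=
  ⟨⟨_, unit_basis⟩, ys 𝕜, ys_basic, fun ⟨u, hu, p, hp, h⟩ => ys_not_ext u hu p hp h⟩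

end Pool.Agent.Y216.BE
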