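import Pool.Agent.Y216.BE.Defs

/-!
Bases and basic sequences of Banach spaces: the partial sums of a basis are uniformly bounded, and
sequences with uniformly bounded partial sums are basic sequences.
-/

set_option autoImplicit false

open Filter Topology Finset
open scoped ENNReal

namespace Pool.Agent.Y216.BE

variable {𝕜 : Type} [RCLike 𝕜] {E : Type} [NormedAddCommGroup E] [NormedSpace 𝕜 E]

/-- **Banach.** The partial sums of a basis are uniformly bounded operators. -/
theorem exists_proj [CompleteSpace E] {u : ℕ → E} (hu : IsBasis 𝕜 u) :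
    ∃ (P : ℕ → E →L[𝕜] E) (C : ℝ), (∀ n x, ‖P n x‖ ≤ C * ‖x‖) ∧
      ∀ n k, P n (u k) = if k < n then u k else 0 := by
  classical
  choose a ha huniq using hu
  have hadd : ∀ x y, a (x + y) = a x + a y := by
    intro x y
    refine (huniq (x + y) _ ?_).symm
    have h1 := (ha x).add (ha y)
    refine h1.congr fun n => ?_
    rw [← sum_add_distrib]
    exact sum_congr rfl fun k _ => by rw [Pi.add_apply, add_smul]
  have hsmul : ∀ (c : 𝕜) x, a (c • x) = c • a x := by
    intro c x
    refine (huniq (c • x) _ ?_).symm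
    have h1 := (ha x).const_smul c
    refine h1.congr fun n => ?_
    rw [smul_sum]
    exact sum_congr rfl fun k _ => by rw [Pi.smul_apply, smul_eq_mul, mul_smul]
  have hmem : ∀ x, Memℓp (fun n => ∑ k ∈ range n, a x k • u k) (∞ : ℝ≥0∞) := by
    intro x
    rw [memℓp_infty_iff]
    exact (ha x).norm.bddAbove_range
  let Φ : E →ₗ[𝕜] lp (fun _ : ℕ => E) ∞ :=
    { toFun := fun x => ⟨fun n => ∑ k ∈ range n, a x k • u k, hmem x⟩
      map_add' := fun x y => by
        ext n
        show ∑ k ∈ range n, a (x + y) k • u k =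
          ∑ k ∈ range n, a x k • u k + ∑ k ∈ range n, a y k • u k
        rw [hadd, ← sum_add_distrib]
        exact sum_congr rfl fun k _ => by rw [Pi.add_apply, add_smul]
      map_smul' := fun c x => by
        ext n
        show ∑ k ∈ range n, a (c • x) k • u k = c • ∑ k ∈ range n, a x k • u k
        rw [hsmul, smul_sum]
        exact sum_congr rfl fun k _ => by rw [Pi.smul_apply, smul_eq_mul, mul_smul] }
  have hΦ : ∀ x n, (Φ x : ∀ _ : ℕ, E) n = ∑ k ∈ range n, a x k • u k := fun x n => rfl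
  have hcont : Continuous Φ := by
    refine Φ.continuous_of_seq_closed_graph fun z x s hz hs => ?_
    have hsn : ∀ n, Tendsto (fun j => (Φ (z j) : ∀ _ : ℕ, E) n) atTop (𝓝 ((s : ∀ _ : ℕ, E) n)) := by
      intro n
      have h1 := (lp.evalCLM 𝕜 (fun _ : ℕ => E) ∞ n).continuous.tendsto s
      exact h1.comp hs
    have hb : ∀ n, ∃ b : 𝕜, (s : ∀ _ : ℕ, E) (n + 1) - (s : ∀ _ : ℕ, E) n = b • u n := by
      intro n
      have h1 : Tendsto (fun j => (Φ (z j) : ∀ _ : ℕ, E) (n + 1) - (Φ (z j) : ∀ _ : ℕ, E) n) atTop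
          (𝓝 ((s : ∀ _ : ℕ, E) (n + 1) - (s : ∀ _ : ℕ, E) n)) := (hsn (n + 1)).sub (hsn n)
      have h2 : IsClosed ((Submodule.span 𝕜 {u n} : Submodule 𝕜 E) : Set E) :=
        Submodule.closed_of_finiteDimensional _
      have h3 : (s : ∀ _ : ℕ, E) (n + 1) - (s : ∀ _ : ℕ, E) n ∈
          (Submodule.span 𝕜 {u n} : Submodule 𝕜 E) := by
        refine h2.mem_of_tendsto h1 (Eventually.of_forall fun j => ?_)
        rw [hΦ, hΦ, sum_range_succ, add_sub_cancel_left]
        exact Submodule.smul_mem _ _ (Submodule.mem_span_singleton_self _)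
      obtain ⟨b, hb⟩ := Submodule.mem_span_singleton.1 h3
      exact ⟨b, hb.symm⟩
    choose b hb using hb
    have h0 : (s : ∀ _ : ℕ, E) 0 = 0 := by
      refine tendsto_nhds_unique (hsn 0) ?_
      simp only [hΦ, range_zero, sum_empty]
      exact tendsto_const_nhds
    have hsum : ∀ n, (s : ∀ _ : ℕ, E) n = ∑ k ∈ range n, b k • u k := by
      intro n
      induction n with
      | zero => rw [h0, range_zero, sum_empty]
      | succ n ih =>
        rw [sum_range_succ, ← ih, ← hb n]
        abel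
    have hlim : Tendsto (fun n => ∑ k ∈ range n, b k • u k) atTop (𝓝 x) := by
      rw [Metric.tendsto_atTop]
      intro ε hε
      have h1 : ∀ᶠ j in atTop, dist (Φ (z j)) s < ε / 3 :=
        (Metric.tendsto_nhds.1 hs) _ (by positivity)
      have h2 : ∀ᶠ j in atTop, dist (z j) x < ε / 3 :=
        (Metric.tendsto_nhds.1 hz) _ (by positivity)
      obtain ⟨j, hj1, hj2⟩ := (h1.and h2).exists
      obtain ⟨M, hM⟩ := (Metric.tendsto_atTop.1 (ha (z j))) (ε / 3) (by positivity)
      refine ⟨M, fun n hn => ?_⟩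
      have h3 := hM n hn
      have h4 : dist (∑ k ∈ range n, b k • u k) (∑ k ∈ range n, a (z j) k • u k) < ε / 3 := by
        rw [← hsum, ← hΦ, dist_comm, dist_eq_norm]
        have h5 := lp.norm_apply_le_norm ENNReal.top_ne_zero (Φ (z j) - s) n
        rw [dist_eq_norm] at hj1
        exact lt_of_le_of_lt h5 hj1
      have h5 := dist_triangle (∑ k ∈ range n, b k • u k) (∑ k ∈ range n, a (z j) k • u k) x
      have h6 := dist_triangle (∑ k ∈ range n, a (z j) k • u k) (z j) x
      linarith
    have hba : b = a x := huniq x b hlim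
    ext n
    rw [hsum n, hΦ, hba]
  obtain ⟨C, hC⟩ : ∃ C : ℝ, ∀ x, ‖Φ x‖ ≤ C * ‖x‖ :=
    ⟨_, fun x => (⟨Φ, hcont⟩ : E →L[𝕜] lp (fun _ : ℕ => E) ∞).le_opNorm x⟩
  refine ⟨fun n => (lp.evalCLM 𝕜 (fun _ : ℕ => E) ∞ n).comp ⟨Φ, hcont⟩, C, fun n x => ?_,
    fun n k => ?_⟩
  · exact le_trans (lp.norm_apply_le_norm ENNReal.top_ne_zero (Φ x) n) (hC x)
  · have h1 : a (u k) = Pi.single k 1 := by
      refine (huniq (u k) _ ?_).symm
      refine tendsto_const_nhds.congr' ?_
      filter_upwards [eventually_gt_atTop k] with n hn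
      rw [sum_eq_single k]
      · rw [Pi.single_eq_same, one_smul]
      · intro i _ hi
        rw [Pi.single_eq_of_ne hi, zero_smul]
      · intro hk
        exact absurd (mem_range.2 hn) hk
    show ∑ i ∈ range n, a (u k) i • u i = _
    rw [h1]
    split_ifs with hk
    · rw [sum_eq_single k]
      · rw [Pi.single_eq_same, one_smul]
      · intro i _ hi
        rw [Pi.single_eq_of_ne hi, zero_smul]
      · intro hk'
        exact absurd (mem_range.2 hk) hk'
    · refine sum_eq_zero fun i hi => ?_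
      have : i ≠ k := by
        rintro rfl
        exact hk (mem_range.1 hi)
      rw [Pi.single_eq_of_ne this, zero_smul]

/-- **Grunblum's criterion.** -/
theorem basic_of_bound {y : ℕ → E} (hy : ∀ k, y k ≠ 0) {K : ℝ}
    (hK : ∀ (a : ℕ → 𝕜) (m n : ℕ), m ≤ n →
      ‖∑ k ∈ range m, a k • y k‖ ≤ K * ‖∑ k ∈ range n, a k • y k‖) : IsBasic 𝕜 y := by
  classical
  have hK0 : 0 ≤ K := by
    have h1 := hK (fun _ => 1) 1 1 le_rfl
    simp only [range_one, sum_singleton, one_smul] at h1
    have h2 : 0 < ‖y 0‖ := norm_pos_iff.2 (hy 0)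
    by_contra hneg
    push Not at hneg
    nlinarith
  have hcoef : ∀ (a : ℕ → 𝕜) (k n : ℕ), k < n →
      ‖a k‖ * ‖y k‖ ≤ 2 * K * ‖∑ i ∈ range n, a i • y i‖ := by
    intro a k n hkn
    have h1 := hK a (k + 1) n hkn
    have h2 := hK a k n hkn.le
    have h3 : a k • y k = ∑ i ∈ range (k + 1), a i • y i - ∑ i ∈ range k, a i • y i := by
      rw [sum_range_succ, add_sub_cancel_left]
    rw [← norm_smul, h3]
    refine le_trans (norm_sub_le _ _) ?_
    linarith
  -- the span consists of finite sums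
  have hspan : ∀ z ∈ Submodule.span 𝕜 (Set.range y), ∃ (c : ℕ → 𝕜) (N : ℕ),
      (∀ k, N ≤ k → c k = 0) ∧ z = ∑ k ∈ range N, c k • y k := by
    intro z hz
    obtain ⟨c, hc⟩ := (Finsupp.mem_span_range_iff_exists_finsupp).1 hz
    obtain ⟨N, hN⟩ : ∃ N, ∀ k ∈ c.support, k < N := by
      refine ⟨c.support.sup id + 1, fun k hk => ?_⟩
      have := Finset.le_sup (f := id) hk
      simp only [id] at this
      omega
    refine ⟨c, N, fun k hk => ?_, ?_⟩
    · by_contra h
      have := hN k (Finsupp.mem_support_iff.2 h)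
      omega
    · rw [← hc, Finsupp.sum]
      refine sum_subset (fun k hk => mem_range.2 (hN k hk)) fun k _ hk => ?_
      rw [Finsupp.notMem_support_iff.1 hk, zero_smul]
  have hli : LinearIndependent 𝕜 y := by
    rw [linearIndependent_iff']
    intro s g hg i hi
    obtain ⟨N, hN⟩ : ∃ N, ∀ k ∈ s, k < N := by
      refine ⟨s.sup id + 1, fun k hk => ?_⟩
      have := Finset.le_sup (f := id) hk
      simp only [id] at this
      omega
    have h1 := hcoef (fun k => if k ∈ s then g k else 0) i N (hN i hi)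
    have h2 : ∑ k ∈ range N, (if k ∈ s then g k else 0) • y k = 0 := by
      rw [← hg]
      refine (sum_subset (fun k hk => mem_range.2 (hN k hk)) fun k _ hk => ?_).symm.trans ?_
      · rw [if_neg hk, zero_smul]
      · exact sum_congr rfl fun k hk => by rw [if_pos hk]
    rw [h2, norm_zero, mul_zero, if_pos hi] at h1
    have h3 : 0 < ‖y i‖ := norm_pos_iff.2 (hy i)
    have h4 : ‖g i‖ ≤ 0 := by
      by_contra h
      push Not at h
      nlinarith
    exact norm_le_zero_iff.1 h4
  -- the coordinate functionals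
  have hfun : ∀ k, ∃ g : E →L[𝕜] 𝕜, ∀ j, g (y j) = if j = k then 1 else 0 := by
    intro k
    let f0 : Submodule.span 𝕜 (Set.range y) →ₗ[𝕜] 𝕜 := (Finsupp.lapply k) ∘ₗ hli.repr
    have hf0 : ∀ z, ‖f0 z‖ ≤ (2 * K / ‖y k‖) * ‖z‖ := by
      intro z
      have hyk : 0 < ‖y k‖ := norm_pos_iff.2 (hy k)
      obtain ⟨c, hc⟩ : ∃ c, c = hli.repr z := ⟨_, rfl⟩
      obtain ⟨N, hN⟩ : ∃ N, ∀ i ∈ c.support, i < N := by
        refine ⟨c.support.sup id + 1, fun i hi => ?_⟩
        have := Finset.le_sup (f := id) hi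
        simp only [id] at this
        omega
      have h1 : (z : E) = ∑ i ∈ range (max N (k + 1)), c i • y i := by
        have h2 := hli.linearCombination_repr z
        rw [← h2, ← hc, Finsupp.linearCombination_apply, Finsupp.sum]
        refine sum_subset (fun i hi => mem_range.2 (lt_of_lt_of_le (hN i hi) (le_max_left _ _)))
          fun i _ hi => ?_
        rw [Finsupp.notMem_support_iff.1 hi, zero_smul]
      have h2 := hcoef c k (max N (k + 1)) (lt_of_lt_of_le (Nat.lt_succ_self k) (le_max_right _ _))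
      rw [← h1] at h2
      have h3 : f0 z = c k := by rw [hc]; rfl
      rw [h3, div_mul_eq_mul_div, le_div_iff₀ hyk]
      exact h2
    let f1 : StrongDual 𝕜 (Submodule.span 𝕜 (Set.range y)) := f0.mkContinuous _ hf0
    obtain ⟨g, hg, _⟩ := exists_extension_norm_eq (Submodule.span 𝕜 (Set.range y)) f1
    refine ⟨g, fun j => ?_⟩
    have h1 := hg ⟨y j, Submodule.subset_span ⟨j, rfl⟩⟩
    rw [h1]
    show (hli.repr ⟨y j, _⟩) k = _
    have h2 : hli.repr ⟨y j, Submodule.subset_span ⟨j, rfl⟩⟩ = Finsupp.single j 1 :=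
      hli.repr_eq_single j _ rfl
    rw [h2, Finsupp.single_apply]
  choose g hg using hfun
  have hgs : ∀ (k : ℕ) (c : ℕ → 𝕜) (N : ℕ),
      g k (∑ i ∈ range N, c i • y i) = if k < N then c k else 0 := by
    intro k c N
    rw [map_sum]
    simp only [map_smul, hg, smul_eq_mul, mul_ite, mul_one, mul_zero]
    rw [sum_ite_eq' (range N) k]
    simp
  let T : ℕ → E →L[𝕜] E := fun n => ∑ k ∈ range n, (g k).smulRight (y k)
  have hT : ∀ n x, T n x = ∑ k ∈ range n, g k x • y k := by
    intro n x
    simp only [T, _root_.sum_apply, ContinuousLinearMap.smulRight_apply]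
  have hTspan : ∀ n, ∀ z ∈ Submodule.span 𝕜 (Set.range y), ‖T n z‖ ≤ K * ‖z‖ := by
    intro n z hz
    obtain ⟨c, N, hc, rfl⟩ := hspan z hz
    have h1 : T n (∑ i ∈ range N, c i • y i) = ∑ k ∈ range n, c k • y k := by
      rw [hT]
      refine sum_congr rfl fun k _ => ?_
      rw [hgs]
      split_ifs with hk
      · rfl
      · rw [hc k (by omega)]
    have h2 : ∑ i ∈ range N, c i • y i = ∑ i ∈ range (max n N), c i • y i := by
      refine sum_subset (fun i hi => mem_range.2 (lt_of_lt_of_le (mem_range.1 hi)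
        (le_max_right _ _))) fun i _ hi => ?_
      rw [hc i (by
        by_contra h
        exact hi (mem_range.2 (by omega))), zero_smul]
    rw [h1, h2]
    exact hK c n _ (le_max_left _ _)
  intro x hx
  have hx' : x ∈ closure (Submodule.span 𝕜 (Set.range y) : Set E) := hx
  have hTx : ∀ n, ∀ z ∈ closure (Submodule.span 𝕜 (Set.range y) : Set E), ‖T n z‖ ≤ K * ‖z‖ := by
    intro n z hz
    have hcl : IsClosed {z : E | ‖T n z‖ ≤ K * ‖z‖} :=
      isClosed_le (T n).continuous.norm (continuous_const.mul continuous_norm)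
    exact closure_minimal (fun z hz => hTspan n z hz) hcl hz
  refine ⟨fun k => g k x, ?_, ?_⟩
  · show Tendsto (fun n => ∑ k ∈ range n, g k x • y k) atTop (𝓝 x)
    rw [Metric.tendsto_atTop]
    intro ε hε
    obtain ⟨z, hz, hzx⟩ := Metric.mem_closure_iff.1 hx' (ε / (K + 1)) (by positivity)
    obtain ⟨c, N, hc, hzc⟩ := hspan z hz
    refine ⟨N, fun n hn => ?_⟩
    have h1 : T n z = z := by
      rw [hT]
      conv_rhs => rw [hzc]
      have h2 : ∀ k ∈ range n, g k z • y k = c k • y k := by
        intro k _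
        rw [hzc, hgs]
        split_ifs with hk
        · rfl
        · rw [hc k (by omega)]
      rw [sum_congr rfl h2]
      refine (sum_subset (fun i hi => mem_range.2 (lt_of_lt_of_le (mem_range.1 hi) hn))
        fun i _ hi => ?_).symm
      rw [hc i (by
        by_contra h
        exact hi (mem_range.2 (by omega))), zero_smul]
    have h2 : x - z ∈ closure (Submodule.span 𝕜 (Set.range y) : Set E) := by
      have h3 : x - z ∈ (Submodule.span 𝕜 (Set.range y)).topologicalClosure :=
        Submodule.sub_mem _ hx (Submodule.le_topologicalClosure _ hz)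
      exact h3
    have h3 := hTx n (x - z) h2
    rw [← hT, dist_eq_norm]
    have h4 : T n x - x = T n (x - z) - (x - z) := by
      rw [map_sub, h1]
      abel
    rw [h4]
    refine lt_of_le_of_lt (norm_sub_le _ _) ?_
    have h5 : ‖x - z‖ < ε / (K + 1) := by rwa [← dist_eq_norm]
    have h6 : (K + 1) * ‖x - z‖ < ε := by
      rw [lt_div_iff₀ (by positivity)] at h5
      linarith
    linarith
  · intro b hb
    funext k
    have h1 := ((g k).continuous.tendsto x).comp hb
    refine tendsto_nhds_unique ?_ h1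
    refine tendsto_const_nhds.congr' ?_
    filter_upwards [eventually_gt_atTop k] with n hn
    show b k = g k (∑ i ∈ range n, b i • y i)
    rw [hgs, if_pos hn]

/-- The unit vectors form a basis of `ℓ¹`. -/
theorem unit_basis : IsBasis 𝕜 (fun k => lp.single 1 k (1 : 𝕜) : ℕ → lp (fun _ : ℕ => 𝕜) 1) := by
  intro x
  have hs : ∀ (a : ℕ → 𝕜) (n : ℕ), ∑ k ∈ range n, a k • (lp.single 1 k (1 : 𝕜) :
      lp (fun _ : ℕ => 𝕜) 1) = ∑ k ∈ range n, lp.single 1 k (a k) := by
    intro a n
    refine sum_congr rfl fun k _ => ?_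
    rw [← lp.single_smul, smul_eq_mul, mul_one]
  refine ⟨fun k => x k, ?_, ?_⟩
  · show Tendsto (fun n => ∑ k ∈ range n, x k • (lp.single 1 k (1 : 𝕜) :
      lp (fun _ : ℕ => 𝕜) 1)) atTop (𝓝 x)
    have h1 := (lp.hasSum_single ENNReal.one_ne_top x).tendsto_sum_nat
    refine h1.congr fun n => ?_
    rw [hs]
  · intro b hb
    funext k
    have h1 := ((lp.evalCLM 𝕜 (fun _ : ℕ => 𝕜) 1 k).continuous.tendsto x).comp hb
    refine tendsto_nhds_unique ?_ h1
    refine tendsto_const_nhds.congr' ?_
    filter_upwards [eventually_gt_atTop k] with n hn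
    show b k = (∑ i ∈ range n, b i • (lp.single 1 i (1 : 𝕜) : lp (fun _ : ℕ => 𝕜) 1) :
      lp (fun _ : ℕ => 𝕜) 1) k
    rw [hs, lp.coeFn_sum, Finset.sum_apply, sum_eq_single k]
    · rw [lp.coeFn_single, Pi.single_eq_same]
    · intro i _ hi
      rw [lp.coeFn_single, Pi.single_eq_of_ne hi.symm]
    · intro hk
      exact absurd (mem_range.2 hn) hk

end Pool.Agent.Y216.BE
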